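import Pool.Agent.H.MP_8a71fe_al.A

set_option autoImplicit false

namespace Pool.Agent.Results.MP_346585_al.Yes

open Finset Pool.Agent.HShift

variable {n : ℕ} {K : Type} [Field K] {Δ : Finset (Fin n) → Prop}

/-- The link of a face. -/
def Lk (Δ : Finset (Fin n) → Prop) (F G : Finset (Fin n)) : Prop := Δ (F ∪ G) ∧ Disjoint F G

/-- Serre's condition in the form of the homological criterion. -/
def Serre (K : Type) [Field K] (l : ℕ) (Δ : Finset (Fin n) → Prop) : Prop :=
  ∀ F i, i < l → (∃ G, Lk Δ F G ∧ i < #G) → Van K (Lk Δ F) i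

def RV (K : Type) [Field K] (Δ : Finset (Fin n) → Prop) (T : Finset (Fin n)) (j : ℕ) : Prop :=
  ∀ w : Finset (Fin n) → K, Supp Δ j w → (∀ G, T ⊆ G → bd w G = 0) →
    ∃ y, Supp Δ (j + 1) y ∧ ∀ G, T ⊆ G → bd y G = w G

lemma rv (T : Finset (Fin n)) : ∀ (Δ : Finset (Fin n) → Prop) (j : ℕ),
    (∀ i, i + #T = j → Van K (Lk Δ T) i) → RV K Δ T j := by
  induction T using Finset.induction_on with
  | empty =>
    intro Δ j h w h1 h2
    obtain ⟨y, h3, h4⟩ := h j rfl w (by simpa [Supp, Lk] using h1) (funext fun G => h2 G (by simp))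
    exact ⟨y, by simpa [Supp, Lk] using h3, fun G _ => congrFun h4 G⟩
  | insert v T hv ih =>
    intro Δ j h w h1 h2
    rcases j with _ | j
    · refine ⟨0, fun _ h => absurd rfl h, fun G hG => by_contra fun h3 => ?_⟩
      rw [bd_zero] at h3
      simpa [card_eq_zero.1 (h1 G (Ne.symm h3)).2] using hG
    let w1 : Finset (Fin n) → K := fun G => if v ∈ G then 0 else sg K v G * w (insert v G)
    have e0 : ∀ G, v ∈ G → (w - cone v w1) G = 0 := fun G hG => by
      simp only [w1, Pi.sub_apply, cone, if_pos hG, if_neg (notMem_erase v G), insert_erase hG]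
      rw [← mul_assoc, sg_sq, one_mul, sub_self]
    obtain ⟨y, h3, h4⟩ := ih (fun G => Δ (insert v G) ∧ v ∉ G) j (fun i hi => by
      convert h i (by rw [card_insert_of_notMem hv]; omega) using 1
      ext G
      simp [Lk, hv, and_assoc]) w1 (fun G hG => by
        have h7 : v ∉ G := fun h => hG (if_pos h)
        simp only [w1, if_neg h7] at hG
        have := h1 _ (right_ne_zero_of_mul hG)
        rw [card_insert_of_notMem h7] at this
        exact ⟨⟨this.1, h7⟩, by omega⟩) fun G hG => by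
      by_cases h5 : v ∈ G
      · exact sum_eq_zero fun j _ => by simp [w1, h5]
      · have h7 : bd (w - cone v w1) (insert v G) = 0 :=
          sum_eq_zero fun j _ => by rw [e0 _ (by simp), mul_zero]
        rw [bd_sub, bd_cone] at h7
        simpa [w1, cone_insert h5, sg_ne, h2 _ (insert_subset_insert v hG)] using h7
    refine ⟨0 - cone v y, Supp.sub (fun _ h => absurd rfl h) (h3.cone fun F _ h _ => h.1),
      fun G hG => ?_⟩
    have h5 := hG (mem_insert_self _ _)
    have h6 : y G = 0 := by_contra fun h => (h3 G h).1.2 h5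
    have h7 := e0 G h5
    simp only [bd_sub, bd_cone, bd_zero, Pi.sub_apply, h6, cone, if_pos h5, h4 _
      (subset_erase.2 ⟨(subset_insert _ _).trans hG, hv⟩)] at h7 ⊢
    simpa using (sub_eq_zero.1 h7).symm

lemma remove (hΔ : Down Δ) {ι : Type} (T : ι → Finset (Fin n)) {i : ℕ} (h : Van K Δ i)
    (s : Finset ι) (h1 : ∀ a ∈ s, ∀ b ∈ s, a ≠ b → ¬ Δ (T a ∪ T b))
    (h2 : ∀ a ∈ s, ∀ j, j + #(T a) = i + 1 → Van K (Lk Δ (T a)) j) :
    Van K (fun G => Δ G ∧ ∀ a ∈ s, ¬ T a ⊆ G) i := by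
  classical
  induction s using Finset.induction_on with
  | empty => simpa using h
  | insert a s ha ih =>
    intro z h3 h4
    simp only [forall_mem_insert] at *
    obtain ⟨w, h5, rfl⟩ := ih (fun a ha => (h1.2 a ha).2) h2.2 z
      (fun G hG => ⟨⟨(h3 G hG).1.1, (h3 G hG).1.2.2⟩, (h3 G hG).2⟩) h4
    obtain ⟨y, h6, h7⟩ := rv (T a) _ _ (fun j hj => by
      convert h2.1 j hj using 1
      ext G
      exact and_congr_left' (and_iff_left_of_imp fun h b hb h' => h1.1.2 b hb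
        (fun e => ha (e ▸ hb)) (hΔ _ _ h (union_subset subset_union_left h')))) w h5
      fun G hG => by_contra fun h => (h3 G h).1.2.1 hG
    have h8 := h5.sub (h6.bd fun F G h h' => ⟨hΔ _ _ h.1 h', fun b hb e => h.2 b hb (e.trans h')⟩)
    exact ⟨w - bd y, fun G hG => ⟨⟨(h8 G hG).1.1, fun h => hG (sub_eq_zero.2 (h7 G h).symm),
      (h8 G hG).1.2⟩, (h8 G hG).2⟩, by rw [bd_sub, bd_bd, sub_zero]⟩

lemma pure (hΔ : Down Δ) (h : ∀ F, (∃ G, Lk Δ F G ∧ 1 < #G) → Van K (Lk Δ F) 1)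
    (F : Finset (Fin n)) : ∀ G H, Maximal Δ G → Maximal Δ H → F ⊆ G → F ⊆ H → #H ≤ #G := by
  classical
  induction F using WellFoundedGT.induction with
  | ind F ih =>
  intro G H hG hH h1 h2
  by_contra h3
  obtain ⟨u, h4, h5⟩ : ∃ u ∈ G, u ∉ F := by
    by_contra h4
    push Not at h4
    exact h3 (card_le_card (hG.2 hH.1 (Subset.trans h4 h2)))
  have := card_lt_card ((ssubset_iff_of_subset h1).2 ⟨u, h4, h5⟩)
  have h6 : 1 < #(H \ F) := by rw [card_sdiff_of_subset h2]; omega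
  obtain ⟨v, hv⟩ := card_pos.1 (zero_lt_one.trans h6)
  rw [mem_sdiff] at hv
  let U := fun x => ∃ J, Maximal Δ J ∧ insert x F ⊆ J ∧ #J ≤ #G
  have h7 : ¬ U v := fun ⟨J, a, b, c⟩ =>
    h3 ((ih _ (ssubset_insert hv.2) J H a hH b (insert_subset hv.1 h2)).trans c)
  obtain ⟨w, h8, h9⟩ := h F ⟨_, ⟨by rw [union_sdiff_of_subset h2]; exact hH.1, disjoint_sdiff⟩, h6⟩
    (Pi.single {u} 1 - Pi.single {v} 1) (Supp.sub (fun E hE => by
      obtain rfl : E = {u} := by_contra fun h => hE (Pi.single_eq_of_ne h _)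
      exact ⟨⟨hΔ _ _ hG.1 (by simp [insert_subset_iff, h1, h4]), by simpa⟩, rfl⟩) fun E hE => by
      obtain rfl : E = {v} := by_contra fun h => hE (Pi.single_eq_of_ne h _)
      exact ⟨⟨hΔ _ _ hH.1 (by simp [insert_subset_iff, h2, hv]), by simpa using hv.2⟩, rfl⟩)
    (funext fun E => by
      by_cases h : E = ∅
      · simp [h, bd, sg, Pi.single_apply]
      · have : ∀ j ∈ Eᶜ, ∀ x, insert j E ≠ {x} := fun j hj x e => h (card_eq_zero.1 (by
          simpa [card_insert_of_notMem (mem_compl.1 hj)] using congrArg card e))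
        exact sum_eq_zero fun j hj => by simp [this j hj])
  have h10 : ∀ x, bd (fun E => if ∀ y ∈ E, U y then w E else 0) {x} =
      if U x then bd w {x} else 0 := fun x => by
    split_ifs with h10
    · refine sum_congr rfl fun j _ => congrArg _ (ite_eq_left_iff.2 fun h11 => by_contra fun h12 =>
        h11 fun y hy => ?_)
      obtain ⟨h13, h14⟩ := (h8 _ (Ne.symm h12)).1
      obtain ⟨J, h15, h16⟩ := Finite.exists_le_maximal h13
      obtain ⟨J', a, b, c⟩ := h10
      exact ⟨J, h16, insert_subset (h15 (mem_union_right _ hy)) (subset_union_left.trans h15),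
        (ih _ (ssubset_insert fun h => disjoint_left.1 h14 h (by simp)) J' J a h16 b
          (insert_subset (h15 (by simp)) (subset_union_left.trans h15))).trans c⟩
    · exact sum_eq_zero fun j _ => mul_eq_zero_of_right _ (if_neg fun h => h10 (h x (by simp)))
  have h11 := congrFun (bd_bd fun E => if ∀ y ∈ E, U y then w E else 0) ∅
  rw [bd, sum_eq_single u (fun x _ hx => by
    by_cases h : x = v <;> simp [h10, h9, h, h7, hx]) (by simp)] at h11
  have h12 : U u := ⟨G, hG, insert_subset h4 h1, le_rfl⟩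
  simp [h10, h9, sg, h12, show u ≠ v from fun e => h7 (e ▸ h12)] at h11

theorem result (K : Type) [Field K] (n l : ℕ) (Δ : Finset (Fin n) → Prop) (hΔ : Down Δ)
    (A : Finset (Finset (Fin n))) (h1 : ∀ σ ∈ A, ∀ τ ∈ A, σ ≠ τ → ¬ Δ (σ ∪ τ))
    (h2 : ∀ F, Maximal Δ F → ∃ σ ∈ A, σ ⊆ F) (h : Serre K l Δ) :
    Serre K l fun G => Δ G ∧ ∀ σ ∈ A, ¬ σ ⊆ G := by
  rintro F i hi ⟨G, ⟨⟨h3, h4⟩, h5⟩, h6⟩
  rcases i with _ | i
  · obtain ⟨v, hv⟩ := card_pos.1 h6
    refine fun c h7 h8 => ⟨cone v c, h7.cone fun E _ _ hE => ?_,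
      by rw [bd_cone, h8, cone_zero, sub_zero]⟩
    have e : F ∪ insert v E ⊆ F ∪ G := by simp [card_eq_zero.1 hE, insert_subset_iff, hv]
    exact ⟨⟨hΔ _ _ h3 e, fun σ hσ h => h4 σ hσ (h.trans e)⟩,
      h5.mono_right (by simpa [card_eq_zero.1 hE])⟩
  convert remove (K := K) (Δ := Lk Δ F) (fun E E' h h' => ⟨hΔ _ _ h.1 (union_subset_union_right h'),
    h.2.mono_right h'⟩) (· \ F) (h F _ hi ⟨G, ⟨h3, h5⟩, h6⟩) A (fun σ a τ b c d => h1 σ a τ b c
      (hΔ _ _ d.1 (by intro x; simp; tauto))) fun σ hσ j hj => ?_ using 1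
  · ext E
    simp only [Lk, show ∀ σ : Finset (Fin n), σ \ F ⊆ E ↔ σ ⊆ F ∪ E from fun _ => sdiff_le_iff]
    tauto
  have e : Lk (Lk Δ F) (σ \ F) = Lk Δ (F ∪ σ) := by
    ext E
    simp only [Lk, ← union_assoc, union_sdiff_self_eq_union, disjoint_left, mem_union, mem_sdiff]
    grind
  rw [e]
  by_cases h7 : Δ (F ∪ σ)
  swap
  · exact van_small fun E hE => absurd (hΔ _ _ hE.1 subset_union_left) h7
  have h8 : 0 < #(σ \ F) := card_pos.2 (sdiff_nonempty.2 fun h =>
    h4 σ hσ (h.trans subset_union_left))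
  obtain ⟨H, h9, h10⟩ := Finite.exists_le_maximal h3
  obtain ⟨J, h11, h12⟩ := Finite.exists_le_maximal h7
  obtain ⟨τ, h13, h14⟩ := h2 H h10
  have := card_lt_card (h9.lt_of_ne fun e => h4 τ h13 (e ▸ h14))
  have := pure hΔ (fun F => h F 1 (by omega)) ∅ J H h12 h10 (empty_subset _) (empty_subset _)
  have := card_sdiff_add_card σ F
  refine h _ j (by omega) ⟨J \ (F ∪ σ), ⟨by rw [union_sdiff_of_subset h11]; exact h12.1,
    disjoint_sdiff⟩, ?_⟩
  rw [card_union_of_disjoint h5, union_comm σ] at *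
  rw [card_sdiff_of_subset h11]
  omega

end Pool.Agent.Results.MP_346585_al.Yes
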